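import Mathlib

set_option autoImplicit false

/-!
# Rainbow matchings: `2 Δ - 1` edges in every set never suffice

For every `Δ ≥ 2` a bipartite multigraph of maximum degree `Δ` with `2 Δ` pairwise disjoint edge
sets of size `2 Δ - 1` that has no rainbow matching.

Gadgets are cycles of length four with vertices `a_s`, `b_s` (`s` a truth value) in which the two
edges `a_s b_s` have multiplicity `Δ - 1` (type `X`) and the two edges `a_s b_(not s)` have
multiplicity one (type `Y`); every edge of type `X` meets every edge of type `Y` of the same gadget.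
There are gadgets `y_i` (`i < Δ`) and `z_k` (`0 < k < Δ`) and edge sets `(i, true)`, `(i, false)`.
The set `(i, true)` consists of the edges of type `X` of `y_i` and one more edge, `(i, false)`
consists of the two edges of type `Y` of `y_i` and `2 Δ - 3` more edges; the additional edges of the
two sets are the edges of type `X` of `z_i` if `i > 0`, and the edges of type `Y` of all the `z_k`
if `i = 0`. For every `i` a rainbow matching uses an additional edge of one of the two sets of
index `i`; for `i = 0` this is an edge of type `Y` of some `z_k`, and for `i = k` it is an edge of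
type `X` of the same `z_k`, a contradiction.
-/

namespace Pool.Agent.Results.MP_75e851_co.SharpThreshold

open Finset

/-- A bipartite multigraph with left vertex set `A`, right vertex set `B` and edge set `E`: the
edge `e` joins the left vertex `l e` to the right vertex `r e`. Parallel edges are distinct
elements of `E` with the same ends. -/
structure BipMultigraph (A B E : Type) where
  /-- left end of an edge -/
  l : E → A
  /-- right end of an edge -/
  r : E → B

variable {A B E : Type}

open Classical in
/-- The degree of the left vertex `a` in the multigraph formed by the edge set `F`. -/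
noncomputable def BipMultigraph.degL (G : BipMultigraph A B E) (F : Finset E) (a : A) : ℕ :=
  (F.filter fun e => G.l e = a).card

open Classical in
/-- The degree of the right vertex `b` in the multigraph formed by the edge set `F`. -/
noncomputable def BipMultigraph.degR (G : BipMultigraph A B E) (F : Finset E) (b : B) : ℕ :=
  (F.filter fun e => G.r e = b).card

/-- The maximum degree `Δ(F)` of the multigraph formed by the edge set `F`. -/
noncomputable def BipMultigraph.maxDeg [Fintype A] [Fintype B] (G : BipMultigraph A B E)
    (F : Finset E) : ℕ :=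
  max (univ.sup (G.degL F)) (univ.sup (G.degR F))

/-- `(S 0, ..., S (m-1))` has a rainbow matching: pairwise distinct edges `f i ∈ S i`, no two of
which share a vertex. -/
def BipMultigraph.HasRainbowMatching (G : BipMultigraph A B E) {m : ℕ}
    (S : Fin m → Finset E) : Prop :=
  ∃ f : Fin m → E, (∀ i, f i ∈ S i) ∧
    ∀ i j, i ≠ j → f i ≠ f j ∧ G.l (f i) ≠ G.l (f j) ∧ G.r (f i) ≠ G.r (f j)

variable {N : ℕ}

/-- Edges: gadget (index and kind; the kind is `true` for the gadgets `z_k`), copy number, and the
left end. The copy with the last number is the edge of type `Y`. -/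
abbrev Ed (N : ℕ) : Type := Fin (N + 2) × Bool × Fin (N + 2) × Bool

/-- vertices of one side -/
abbrev Ve (N : ℕ) : Type := Fin (N + 2) × Bool × Bool

/-- the multigraph -/
def G (N : ℕ) : BipMultigraph (Ve N) (Ve N) (Ed N) where
  l e := (e.1, e.2.1, e.2.2.2)
  r e := (e.1, e.2.1, if e.2.2.1 = Fin.last (N + 1) then !e.2.2.2 else e.2.2.2)

/-- the set that contains a given edge -/
def cls (e : Ed N) : Option (Fin (N + 2) × Bool) :=
  if e.2.1 = false then
    (if e.2.2.1 = Fin.last (N + 1) then some (e.1, false) else some (e.1, true))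
  else if e.1 = 0 then none
  else if e.2.2.1 = Fin.last (N + 1) then
    (if e.1 = 1 ∧ e.2.2.2 = false then some (0, true) else some (0, false))
  else
    (if e.2.2.1 = 0 ∧ e.2.2.2 = false then some (e.1, true) else some (e.1, false))

/-- the sets of edges -/
def W (c : Fin (N + 2) × Bool) : Finset (Ed N) := univ.filter fun e => cls e = some c

lemma mem_W (c : Fin (N + 2) × Bool) (e : Ed N) : e ∈ W c ↔ cls e = some c := by
  simp [W]

lemma zero_ne_last : (0 : Fin (N + 2)) ≠ Fin.last (N + 1) := by
  intro h
  have := congrArg Fin.val h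
  simp at this

lemma one_ne_zero' : (1 : Fin (N + 2)) ≠ 0 := by
  intro h
  have := congrArg Fin.val h
  simp at this

lemma card_true_zero : (W ((0 : Fin (N + 2)), true)).card = 2 * (N + 2) - 1 := by
  have h : W ((0 : Fin (N + 2)), true) =
      insert ((1 : Fin (N + 2)), true, Fin.last (N + 1), false)
        (({0} : Finset (Fin (N + 2))) ×ˢ ({false} : Finset Bool) ×ˢ
          (univ.erase (Fin.last (N + 1))) ×ˢ (univ : Finset Bool)) := by
    ext ⟨i, c, n, s⟩
    rw [mem_W]
    unfold cls
    have := one_ne_zero' (N := N)
    simp only [mem_insert, Prod.mk.injEq, mem_product, mem_singleton, mem_erase, mem_univ,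
      and_true, ne_eq]
    cases c <;> cases s <;> by_cases h0 : i = 0 <;> by_cases h1 : i = 1 <;>
      by_cases h2 : n = Fin.last (N + 1) <;> by_cases h3 : n = 0 <;> simp_all
  rw [h, card_insert_of_notMem, card_product, card_product, card_product, card_erase_of_mem]
  · simp; omega
  · simp
  · simp

lemma card_true (i : Fin (N + 2)) (hi : i ≠ 0) : (W (i, true)).card = 2 * (N + 2) - 1 := by
  have h : W (i, true) =
      insert (i, true, (0 : Fin (N + 2)), false)
        (({i} : Finset (Fin (N + 2))) ×ˢ ({false} : Finset Bool) ×ˢ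
          (univ.erase (Fin.last (N + 1))) ×ˢ (univ : Finset Bool)) := by
    ext ⟨j, c, n, s⟩
    rw [mem_W]
    unfold cls
    have := zero_ne_last (N := N)
    have hi' : (0 : Fin (N + 2)) ≠ i := fun h => hi h.symm
    simp only [mem_insert, Prod.mk.injEq, mem_product, mem_singleton, mem_erase, mem_univ,
      and_true, ne_eq]
    cases c <;> cases s <;> by_cases h0 : j = 0 <;> by_cases h1 : j = i <;>
      by_cases h2 : n = Fin.last (N + 1) <;> by_cases h3 : n = 0 <;> by_cases h4 : j = 1 <;>
      simp_all
  rw [h, card_insert_of_notMem, card_product, card_product, card_product, card_erase_of_mem]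
  · simp; omega
  · simp
  · simp

lemma card_false_zero : (W ((0 : Fin (N + 2)), false)).card = 2 * (N + 2) - 1 := by
  have h : W ((0 : Fin (N + 2)), false) =
      (({0} : Finset (Fin (N + 2))) ×ˢ ({false} : Finset Bool) ×ˢ
          ({Fin.last (N + 1)} : Finset (Fin (N + 2))) ×ˢ (univ : Finset Bool)) ∪
      (((univ.erase (0 : Fin (N + 2))) ×ˢ ({true} : Finset Bool) ×ˢ
          ({Fin.last (N + 1)} : Finset (Fin (N + 2))) ×ˢ (univ : Finset Bool)).erase
            ((1 : Fin (N + 2)), true, Fin.last (N + 1), false)) := by
    ext ⟨i, c, n, s⟩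
    rw [mem_W]
    unfold cls
    have := one_ne_zero' (N := N)
    have := zero_ne_last (N := N)
    simp only [mem_union, Prod.mk.injEq, mem_product, mem_singleton, mem_erase, mem_univ,
      and_true, ne_eq]
    cases c <;> cases s <;> by_cases h0 : i = 0 <;> by_cases h1 : i = 1 <;>
      by_cases h2 : n = Fin.last (N + 1) <;> by_cases h3 : n = 0 <;> simp_all
  rw [h, card_union_of_disjoint, card_erase_of_mem, card_product, card_product, card_product,
    card_product, card_product, card_product, card_erase_of_mem]
  · simp; omega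
  · simp
  · simp
  · rw [Finset.disjoint_left]
    rintro ⟨i, c, n, s⟩ h1 h2
    simp only [mem_product, mem_singleton, mem_erase] at h1 h2
    rw [h1.2.1] at h2
    exact absurd h2.2.2.1 (by simp)

lemma card_false (i : Fin (N + 2)) (hi : i ≠ 0) : (W (i, false)).card = 2 * (N + 2) - 1 := by
  have h : W (i, false) =
      (({i} : Finset (Fin (N + 2))) ×ˢ ({false} : Finset Bool) ×ˢ
          ({Fin.last (N + 1)} : Finset (Fin (N + 2))) ×ˢ (univ : Finset Bool)) ∪
      ((({i} : Finset (Fin (N + 2))) ×ˢ ({true} : Finset Bool) ×ˢ
          (univ.erase (Fin.last (N + 1))) ×ˢ (univ : Finset Bool)).erase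
            (i, true, (0 : Fin (N + 2)), false)) := by
    ext ⟨j, c, n, s⟩
    rw [mem_W]
    unfold cls
    have := one_ne_zero' (N := N)
    have := zero_ne_last (N := N)
    have hi' : (0 : Fin (N + 2)) ≠ i := fun h => hi h.symm
    simp only [mem_union, Prod.mk.injEq, mem_product, mem_singleton, mem_erase, mem_univ,
      and_true, ne_eq]
    cases c <;> cases s <;> by_cases h0 : j = 0 <;> by_cases h1 : j = i <;>
      by_cases h2 : n = Fin.last (N + 1) <;> by_cases h3 : n = 0 <;> by_cases h4 : j = 1 <;>
      simp_all
  rw [h, card_union_of_disjoint, card_erase_of_mem, card_product, card_product, card_product,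
    card_product, card_product, card_product, card_erase_of_mem]
  · simp; omega
  · simp
  · simp
  · rw [Finset.disjoint_left]
    rintro ⟨j, c, n, s⟩ h1 h2
    simp only [mem_product, mem_singleton, mem_erase] at h1 h2
    rw [h1.2.1] at h2
    exact absurd h2.2.2.1 (by simp)

lemma card_W (c : Fin (N + 2) × Bool) : (W c).card = 2 * (N + 2) - 1 := by
  obtain ⟨i, c⟩ := c
  by_cases hi : i = 0
  · subst hi
    cases c
    · exact card_false_zero
    · exact card_true_zero
  · cases c
    · exact card_false i hi
    · exact card_true i hi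

lemma card_filter_le_of {α : Type} (F T : Finset α) (p : α → Prop) (inst : DecidablePred p)
    (h : ∀ e, p e → e ∈ T) : (@Finset.filter _ p inst F).card ≤ T.card := by
  refine Finset.card_le_card ?_
  intro e he
  rw [Finset.mem_filter] at he
  exact h e he.2

lemma degL_le (F : Finset (Ed N)) (v : Ve N) : (G N).degL F v ≤ N + 2 := by
  have h : ∀ e : Ed N, (G N).l e = v →
      e ∈ (univ : Finset (Fin (N + 2))).image fun n => ((v.1, v.2.1, n, v.2.2) : Ed N) := by
    rintro ⟨i, c, n, s⟩ rfl
    simp [G]
  refine (card_filter_le_of _ _ _ _ h).trans (card_image_le.trans ?_)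
  simp

lemma degR_le (F : Finset (Ed N)) (v : Ve N) : (G N).degR F v ≤ N + 2 := by
  have h : ∀ e : Ed N, (G N).r e = v →
      e ∈ (univ : Finset (Fin (N + 2))).image fun n =>
        ((v.1, v.2.1, n, if n = Fin.last (N + 1) then !v.2.2 else v.2.2) : Ed N) := by
    rintro ⟨i, c, n, s⟩ rfl
    by_cases hn : n = Fin.last (N + 1) <;> simp [G, hn]
  refine (card_filter_le_of _ _ _ _ h).trans (card_image_le.trans ?_)
  simp

lemma maxDeg_le (F : Finset (Ed N)) : (G N).maxDeg F ≤ N + 2 :=
  max_le (Finset.sup_le fun v _ => degL_le F v) (Finset.sup_le fun v _ => degR_le F v)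

lemma le_card_filter_of {α : Type} (F T : Finset α) (p : α → Prop) (inst : DecidablePred p)
    (h : ∀ e ∈ T, e ∈ F ∧ p e) : T.card ≤ (@Finset.filter _ p inst F).card := by
  refine Finset.card_le_card ?_
  intro e he
  rw [Finset.mem_filter]
  exact h e he

lemma le_maxDeg (F : Finset (Ed N)) (hF : ∀ n : Fin (N + 2), ((0, false, n, false) : Ed N) ∈ F) :
    N + 2 ≤ (G N).maxDeg F := by
  refine le_trans ?_ (le_max_left _ _)
  refine le_trans ?_ (Finset.le_sup (mem_univ ((0, false, false) : Ve N)))
  have h : ∀ e ∈ (univ : Finset (Fin (N + 2))).image fun n => ((0, false, n, false) : Ed N),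
      e ∈ F ∧ (G N).l e = ((0, false, false) : Ve N) := by
    intro e he
    simp only [mem_image, mem_univ, true_and] at he
    obtain ⟨n, rfl⟩ := he
    exact ⟨hF n, rfl⟩
  refine le_trans ?_ (le_card_filter_of _ _ _ _ h)
  rw [card_image_of_injective _ (fun a b hab => by simpa using hab)]
  simp

/-- For every index one of the two edges chosen in the sets with this index is in a gadget `z_k`. -/
lemma exists_kind (f : Fin (N + 2) × Bool → Ed N) (hf : ∀ c, cls (f c) = some c)
    (hd : ∀ c c', c ≠ c' → (G N).l (f c) ≠ (G N).l (f c') ∧ (G N).r (f c) ≠ (G N).r (f c'))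
    (i : Fin (N + 2)) : ∃ c : Bool, (f (i, c)).2.1 = true := by
  by_contra hcon
  push Not at hcon
  have h1 := hcon true
  have h2 := hcon false
  have c1 := hf (i, true)
  have c2 := hf (i, false)
  have hne : ((i, true) : Fin (N + 2) × Bool) ≠ (i, false) := by simp
  obtain ⟨d1, d2⟩ := hd _ _ hne
  generalize f (i, true) = e at *
  generalize f (i, false) = g at *
  obtain ⟨a, b, n, s⟩ := e
  obtain ⟨a', b', n', s'⟩ := g
  simp only [ne_eq, Bool.not_eq_true] at h1 h2
  subst h1 h2
  unfold cls at c1 c2
  simp only [if_true] at c1 c2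
  by_cases hn : n = Fin.last (N + 1)
  · simp [hn] at c1
  · by_cases hn' : n' = Fin.last (N + 1)
    · simp [hn] at c1
      simp [hn'] at c2
      subst c1 c2
      simp [G, hn, hn'] at d1 d2
      cases s <;> cases s' <;> simp_all
    · simp [hn'] at c2

lemma no_choice (f : Fin (N + 2) × Bool → Ed N) (hf : ∀ c, cls (f c) = some c)
    (hd : ∀ c c', c ≠ c' → (G N).l (f c) ≠ (G N).l (f c') ∧ (G N).r (f c) ≠ (G N).r (f c')) :
    False := by
  obtain ⟨c, hc⟩ := exists_kind f hf hd 0
  -- the edge chosen for the index `0` is of type `Y` in some `z_k`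
  have h1 := hf (0, c)
  obtain ⟨k, s, hk, hfk⟩ : ∃ k : Fin (N + 2), ∃ s : Bool, k ≠ 0 ∧
      f (0, c) = (k, true, Fin.last (N + 1), s) := by
    generalize f (0, c) = e at *
    obtain ⟨a, b, n, s⟩ := e
    simp only at hc
    subst hc
    unfold cls at h1
    by_cases h0 : a = 0
    · simp [h0] at h1
    · refine ⟨a, s, h0, ?_⟩
      by_cases hn : n = Fin.last (N + 1)
      · rw [hn]
      · exfalso
        simp only [h0, hn, if_false, Bool.true_eq_false] at h1
        split_ifs at h1 <;> simp_all
  obtain ⟨c', hc'⟩ := exists_kind f hf hd k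
  have h2 := hf (k, c')
  obtain ⟨n, s', hn, hfk'⟩ : ∃ n : Fin (N + 2), ∃ s' : Bool, n ≠ Fin.last (N + 1) ∧
      f (k, c') = (k, true, n, s') := by
    generalize f (k, c') = e at *
    obtain ⟨a, b, n, s⟩ := e
    simp only at hc'
    subst hc'
    unfold cls at h2
    by_cases h0 : a = 0
    · simp [h0] at h2
    · by_cases hn : n = Fin.last (N + 1)
      · exfalso
        simp only [h0, hn, if_false, if_true, Bool.true_eq_false] at h2
        split_ifs at h2 <;> simp_all
      · refine ⟨n, s, hn, ?_⟩
        simp only [h0, hn, if_false, Bool.true_eq_false] at h2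
        split_ifs at h2 <;> simp_all
  have hne : ((0, c) : Fin (N + 2) × Bool) ≠ (k, c') := by
    intro h
    exact hk (congrArg Prod.fst h).symm
  obtain ⟨d1, d2⟩ := hd _ _ hne
  rw [hfk, hfk'] at d1 d2
  simp [G, hn] at d1 d2
  cases s <;> cases s' <;> simp_all

/-- **Q1 fails for every maximum degree, with sets of nearly twice that size.** For every `Δ ≥ 2`
there are a finite bipartite multigraph and `2 Δ` pairwise disjoint sets of edges, each with exactly
`2 Δ - 1` edges, whose union has maximum degree exactly `Δ` and which have no rainbow matching. -/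
theorem result (D : ℕ) (hD : 2 ≤ D) :
    ∃ (A B E : Type) (_ : Fintype A) (_ : Fintype B) (_ : Fintype E) (_ : DecidableEq E)
      (G : BipMultigraph A B E) (S : Fin (2 * D) → Finset E),
      (∀ i j, i ≠ j → Disjoint (S i) (S j)) ∧
      G.maxDeg (univ.biUnion S) = D ∧
      (∀ i, (S i).card = 2 * D - 1) ∧
      ¬ G.HasRainbowMatching S := by
  obtain ⟨N, rfl⟩ : ∃ N, D = N + 2 := ⟨D - 2, by omega⟩
  have hcard : Fintype.card (Fin (N + 2) × Bool) = 2 * (N + 2) := by
    simp [Fintype.card_prod]; ring
  let q : Fin (N + 2) × Bool ≃ Fin (2 * (N + 2)) := Fintype.equivFinOfCardEq hcard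
  refine ⟨Ve N, Ve N, Ed N, inferInstance, inferInstance, inferInstance, inferInstance, G N,
    fun i => W (q.symm i), ?_, ?_, fun i => card_W _, ?_⟩
  · intro i j hij
    rw [Finset.disjoint_left]
    intro e h1 h2
    rw [mem_W] at h1 h2
    rw [h1] at h2
    exact hij (q.symm.injective (Option.some.inj h2))
  · apply le_antisymm (maxDeg_le _)
    apply le_maxDeg
    intro n
    rw [mem_biUnion]
    by_cases hn : n = Fin.last (N + 1)
    · exact ⟨q (0, false), mem_univ _, by rw [mem_W]; simp [cls, hn]⟩
    · exact ⟨q (0, true), mem_univ _, by rw [mem_W]; simp [cls, hn]⟩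
  · rintro ⟨f, hf, hd⟩
    apply no_choice (fun c => f (q c))
    · intro c
      have := hf (q c)
      rw [mem_W] at this
      simpa using this
    · intro c c' hcc
      exact (hd (q c) (q c') (fun h => hcc (q.injective h))).2

end Pool.Agent.Results.MP_75e851_co.SharpThreshold
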